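import Pool.Agent.H14.TA.Stmts

/-!
Module DEL: powers of `δ`.
-/

namespace TA

section
variable {κ : ℕ}

theorem nn_a_zpow (n : ℤ) (i : ZMod (2 * κ)) :
    nn κ (dgen κ false ^ n) i = if i = 0 then n else 0 := by
  have h0 : ∀ (m : ℕ) (i : ZMod (2 * κ)),
      nn κ (dgen κ false ^ m) i = if i = 0 then (m : ℤ) else 0 := by
    intro m
    induction m with
    | zero => intro i; simp
    | succ m ih =>
      intro i
      rw [pow_succ, nn_mul, ih, nn_a, cls_pow, cls_a, mul_zero, sub_zero]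
      split_ifs <;> simp
  cases n with
  | ofNat n => simpa using h0 n i
  | negSucc n =>
    rw [zpow_negSucc, nn_inv, cls_pow, cls_a, mul_zero, add_zero, h0]
    split_ifs
    · rw [Int.negSucc_eq]; push_cast; ring
    · simp

theorem cls_a_zpow (n : ℤ) : cls κ (dgen κ false ^ n) = 0 := by
  rw [cls_zpow, cls_a, mul_zero]

theorem cls_ab_pow (j : ℕ) : cls κ ((dgen κ false * dgen κ true) ^ j) = j := by
  rw [cls_pow]; simp

theorem nn_ab_pow (j : ℕ) (i : ZMod (2 * κ)) :
    nn κ ((dgen κ false * dgen κ true) ^ j) i =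
      (((Finset.range j).filter (fun j' : ℕ => (j' : ZMod (2 * κ)) = i)).card : ℤ) := by
  induction j with
  | zero => simp
  | succ j ih =>
    rw [pow_succ, nn_mul, ih, cls_ab_pow, Finset.range_add_one, Finset.filter_insert]
    by_cases h : (j : ZMod (2 * κ)) = i
    · rw [if_pos h, Finset.card_insert_of_notMem (by simp)]
      subst h
      simp
    · rw [if_neg h]
      have : i - (j : ZMod (2 * κ)) ≠ 0 := fun h' => h (sub_eq_zero.1 h').symm
      simp [this]

/-- natural numbers below `2κ` with a given class -/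
theorem filter_cast_eq (hκ : 1 ≤ κ) (i : ZMod (2 * κ)) (n : ℕ) (hn : n ≤ 2 * κ) :
    (Finset.range n).filter (fun j' : ℕ => (j' : ZMod (2 * κ)) = i) =
      if i.val < n then {i.val} else ∅ := by
  have : NeZero (2 * κ) := ⟨by omega⟩
  ext j
  simp only [Finset.mem_filter, Finset.mem_range]
  constructor
  · rintro ⟨h1, rfl⟩
    rw [ZMod.val_natCast, Nat.mod_eq_of_lt (by omega), if_pos h1]
    simp
  · intro h
    split_ifs at h with h1
    · rw [Finset.mem_singleton] at h
      subst h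
      exact ⟨h1, ZMod.natCast_zmod_val i⟩
    · simp at h

theorem nn_ab_pow_le (hκ : 1 ≤ κ) (j : ℕ) (hj : j ≤ 2 * κ) (i : ZMod (2 * κ)) :
    nn κ ((dgen κ false * dgen κ true) ^ j) i = if i.val < j then 1 else 0 := by
  rw [nn_ab_pow, filter_cast_eq hκ i j hj]
  split_ifs <;> simp

theorem nn_zz (hκ : 1 ≤ κ) (i : ZMod (2 * κ)) : nn κ (zz κ) i = 1 := by
  have : NeZero (2 * κ) := ⟨by omega⟩
  rw [zz, nn_ab_pow_le hκ _ le_rfl, if_pos (ZMod.val_lt i)]

theorem cls_zz : cls κ (zz κ) = 0 := by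
  rw [zz, cls_ab_pow]
  exact ZMod.natCast_self (2 * κ)

theorem cls_zz_zpow (c : ℤ) : cls κ (zz κ ^ c) = 0 := by
  rw [cls_zpow, cls_zz, mul_zero]

theorem nn_zz_zpow (hκ : 1 ≤ κ) (c : ℤ) (i : ZMod (2 * κ)) : nn κ (zz κ ^ c) i = c := by
  have h0 : ∀ m : ℕ, ∀ i, nn κ (zz κ ^ m) i = m := by
    intro m
    induction m with
    | zero => intro i; simp
    | succ m ih =>
      intro i
      rw [pow_succ, nn_mul, ih, nn_zz hκ]
      push_cast
      rfl
  cases c with
  | ofNat c => simpa using h0 c i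
  | negSucc c =>
    rw [zpow_negSucc, nn_inv, h0, Int.negSucc_eq]
    push_cast
    rfl

theorem cls_del : cls κ (del κ) = κ := by
  rw [del, cls_ab_pow]

theorem nn_del (hκ : 1 ≤ κ) (i : ZMod (2 * κ)) : nn κ (del κ) i = if i.val < κ then 1 else 0 := by
  rw [del, nn_ab_pow_le hκ _ (by omega)]

theorem del_sq : del κ ^ 2 = zz κ := by
  rw [del, zz, ← pow_mul, mul_comm]

theorem del_even (c : ℤ) : del κ ^ (2 * c) = zz κ ^ c := by
  rw [zpow_mul]
  congr 1
  exact_mod_cast del_sq

theorem cls_del_even (c : ℤ) : cls κ (del κ ^ (2 * c)) = 0 := by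
  rw [del_even, cls_zz_zpow]

theorem nn_del_even (hκ : 1 ≤ κ) (c : ℤ) (i : ZMod (2 * κ)) : nn κ (del κ ^ (2 * c)) i = c := by
  rw [del_even, nn_zz_zpow hκ]

theorem cls_del_odd (c : ℤ) : cls κ (del κ ^ (2 * c + 1)) = κ := by
  rw [zpow_add, zpow_one, cls_mul, cls_del_even, cls_del, zero_add]

theorem nn_del_odd (hκ : 1 ≤ κ) (c : ℤ) (i : ZMod (2 * κ)) :
    nn κ (del κ ^ (2 * c + 1)) i = c + if i.val < κ then 1 else 0 := by
  rw [zpow_add, zpow_one, nn_mul, nn_del_even hκ, cls_del_even, sub_zero, nn_del hκ]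

theorem cast_kappa_ne (hκ : 1 ≤ κ) : (κ : ZMod (2 * κ)) ≠ 0 := by
  intro h
  rw [ZMod.natCast_eq_zero_iff] at h
  have := Nat.le_of_dvd hκ h
  omega

theorem one_ne_zero' (hκ : 1 ≤ κ) : (1 : ZMod (2 * κ)) ≠ 0 := by
  intro h
  have h' : ((1 : ℕ) : ZMod (2 * κ)) = 0 := by exact_mod_cast h
  rw [ZMod.natCast_eq_zero_iff] at h'
  have := Nat.le_of_dvd one_pos h'
  omega

theorem one_ne_kappa (hκ : 2 ≤ κ) : (1 : ZMod (2 * κ)) ≠ κ := by
  intro h
  have h' : ((1 : ℕ) : ZMod (2 * κ)) = ((κ : ℕ) : ZMod (2 * κ)) := by exact_mod_cast h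
  rw [ZMod.natCast_eq_natCast_iff'] at h'
  rw [Nat.mod_eq_of_lt (by omega), Nat.mod_eq_of_lt (by omega)] at h'
  omega

end

/-- Module DEL -/
theorem del_ : S_DEL := by
  intro κ hκ
  have hκ1 : 1 ≤ κ := by omega
  refine ⟨fun c => del_even c, ?_, ?_, ?_⟩
  · intro m n h
    obtain ⟨c, rfl | rfl⟩ := Int.even_or_odd' m
    · have h1 := congrArg (fun g => nn κ g 1) h
      simp only [nn_del_even hκ1, nn_a_zpow, if_neg (one_ne_zero' hκ1)] at h1
      subst h1
      have h2 := congrArg (fun g => nn κ g 0) h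
      simp only [nn_del_even hκ1, nn_a_zpow, if_true] at h2
      exact ⟨by simp, h2.symm⟩
    · exfalso
      have h1 := congrArg (cls κ) h
      rw [cls_del_odd, cls_zpow, cls_a, mul_zero] at h1
      exact cast_kappa_ne hκ1 h1
  · intro n h
    have := (mem_KK.1 h).2
    simpa [nn_a_zpow] using this
  · intro m m' p t ht h
    obtain ⟨c, rfl | rfl⟩ := Int.even_or_odd' m
    · obtain ⟨c', rfl | rfl⟩ := Int.even_or_odd' m'
      · have h1 := congrArg (fun g => nn κ g 1) h
        simp only [nn_mul, nn_del_even hκ1, nn_a_zpow, cls_del_even, cls_a_zpow,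
          sub_zero, if_neg (one_ne_zero' hκ1), add_zero, zero_add] at h1
        subst h1
        exact ⟨rfl, ⟨c, by ring⟩⟩
      · exfalso
        have h1 := congrArg (cls κ) h
        rw [cls_mul, cls_mul, cls_del_even, cls_del_odd, cls_zpow, cls_zpow, cls_a] at h1
        simp only [mul_zero, add_zero, zero_add] at h1
        exact cast_kappa_ne hκ1 h1.symm
    · obtain ⟨c', rfl | rfl⟩ := Int.even_or_odd' m'
      · exfalso
        have h1 := congrArg (cls κ) h
        rw [cls_mul, cls_mul, cls_del_even, cls_del_odd, cls_zpow, cls_zpow, cls_a] at h1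
        simp only [mul_zero, add_zero] at h1
        exact cast_kappa_ne hκ1 h1
      · exfalso
        have h1 := congrArg (fun g => nn κ g 1) h
        have h2 := congrArg (fun g => nn κ g 0) h
        have hne : (1 : ZMod (2 * κ)) - κ ≠ 0 := sub_ne_zero.2 (one_ne_kappa hκ)
        have hne' : (0 : ZMod (2 * κ)) - κ ≠ 0 := by
          rw [zero_sub, neg_ne_zero]
          exact cast_kappa_ne hκ1
        simp only [nn_mul, nn_del_odd hκ1, nn_a_zpow, cls_del_odd, cls_a_zpow,
          sub_zero, if_neg (one_ne_zero' hκ1), if_neg hne, if_neg hne', if_true] at h1 h2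
        omega

end TA
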