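import Pool.Agent.H28.TA.DEL

/-!
Modules PARV, PARK, SIDED: side functions on the dihedral group.
-/

namespace TA

section
variable {κ : ℕ}

/-- a predicate on `ℕ` with period `κ` holds for an even number of numbers below `2κ` -/
theorem even_card_filter (p : ℕ → Prop) [DecidablePred p] (h : ∀ j, p (j + κ) ↔ p j) :
    Even ((Finset.range (2 * κ)).filter p).card := by
  have h1 : ((Finset.range (2 * κ)).filter p).card =
      ((Finset.range κ).filter p).card + ((Finset.range κ).filter p).card := by
    rw [two_mul, Finset.range_add_eq_union, Finset.filter_union, Finset.card_union_of_disjoint]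
    · congr 1
      rw [Finset.filter_map, Finset.card_map]
      congr 1
      apply Finset.filter_congr
      intro j _
      simp only [Function.comp_apply, addLeftEmbedding_apply]
      rw [add_comm κ j]
      exact h j
    · exact Finset.disjoint_filter_filter (by
        rw [Finset.disjoint_left]
        intro j hj hj'
        simp only [Finset.mem_range, Finset.mem_map, addLeftEmbedding_apply] at hj hj'
        obtain ⟨k, -, rfl⟩ := hj'
        omega)
  rw [h1]
  exact ⟨_, rfl⟩

end

/-- Module PARV -/
theorem parv : S_PARV := by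
  classical
  intro κ hκ t
  refine Even.add (even_card_filter _ fun j => ?_) (even_card_filter _ fun j => ?_)
  · rw [pow_add, ← mul_assoc]
    exact Subgroup.mul_mem_cancel_right _ (Subgroup.mem_zpowers (del κ))
  · have e : t⁻¹ * (dgen κ true * (dgen κ false * dgen κ true) ^ (j + κ)) =
        t⁻¹ * (dgen κ true * (dgen κ false * dgen κ true) ^ j) * del κ := by
      rw [pow_add, del]
      simp only [mul_assoc]
    rw [e]
    exact Subgroup.mul_mem_cancel_right _ (Subgroup.mem_zpowers (del κ))

theorem mem_KK_iff {κ : ℕ} (t g : D κ) :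
    t⁻¹ * g ∈ KK κ ↔ cls κ g = cls κ t ∧ nn κ g (cls κ t) = nn κ t (cls κ t) := by
  rw [mem_KK, cls_mul, nn_mul, cls_inv, nn_inv]
  simp only [zero_add, sub_neg_eq_add]
  constructor
  · rintro ⟨h1, h2⟩
    exact ⟨by linear_combination h1, by linear_combination h2⟩
  · rintro ⟨h1, h2⟩
    exact ⟨by rw [h1]; ring, by rw [h2]; ring⟩

/-- Module PARK -/
theorem park : S_PARK := by
  classical
  intro κ hκ t
  have : NeZero (2 * κ) := ⟨by omega⟩
  have e1 : (Finset.range (2 * κ)).filter
      (fun j => t⁻¹ * (dgen κ false * dgen κ true) ^ j ∈ KK κ) =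
      if nn κ t (cls κ t) = 0 then {(cls κ t).val} else ∅ := by
    ext j
    rw [Finset.mem_filter, Finset.mem_range, mem_KK_iff, cls_ab_pow]
    constructor
    · rintro ⟨h1, h2, h3⟩
      rw [← h2, nn_ab_pow_le hκ _ h1.le, ZMod.val_natCast, Nat.mod_eq_of_lt h1,
        if_neg (lt_irrefl _)] at h3
      rw [← h2, ← h3, if_pos rfl, ZMod.val_natCast, Nat.mod_eq_of_lt h1]
      simp
    · intro h
      split_ifs at h with h1
      · rw [Finset.mem_singleton] at h
        subst h
        refine ⟨ZMod.val_lt _, ZMod.natCast_zmod_val _, ?_⟩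
        rw [nn_ab_pow_le hκ _ (ZMod.val_lt _).le, if_neg (lt_irrefl _), h1]
      · simp at h
  have e2 : (Finset.range (2 * κ)).filter
      (fun j => t⁻¹ * (dgen κ true * (dgen κ false * dgen κ true) ^ j) ∈ KK κ) =
      if nn κ t (cls κ t) = 0 then {(cls κ t - 1).val} else ∅ := by
    ext j
    rw [Finset.mem_filter, Finset.mem_range, mem_KK_iff, cls_mul, cls_ab_pow, cls_b, nn_mul, nn_b,
      cls_b, zero_add]
    constructor
    · rintro ⟨h1, h2, h3⟩
      have h4 : cls κ t - 1 = j := by rw [← h2]; ring
      rw [h4, nn_ab_pow_le hκ _ h1.le, ZMod.val_natCast, Nat.mod_eq_of_lt h1,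
        if_neg (lt_irrefl _)] at h3
      rw [← h3, if_pos rfl, h4, ZMod.val_natCast, Nat.mod_eq_of_lt h1]
      simp
    · intro h
      split_ifs at h with h1
      · rw [Finset.mem_singleton] at h
        subst h
        refine ⟨ZMod.val_lt _, ?_, ?_⟩
        · rw [ZMod.natCast_zmod_val]; ring
        · rw [nn_ab_pow_le hκ _ (ZMod.val_lt _).le, if_neg (lt_irrefl _), h1]
      · simp at h
  rw [e1, e2]
  split_ifs
  · simp
  · simp

section
variable {κ : ℕ}

open Classical in
/-- the images of the generators in the group `Aff` -/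
noncomputable def sideGen (κ : ℕ) (B : Subgroup (D κ)) (x : Bool) : Aff (D κ) :=
  if x then ⟨fun _ => 0, dgen κ true⟩ else ⟨fun t => if t ∈ B then 1 else 0, dgen κ false⟩

open Classical in
theorem sideGen_pow1 (B : Subgroup (D κ)) (n : ℕ) :
    (sideGen κ B false * sideGen κ B true) ^ n = ⟨fun t => (((Finset.range n).filter
      (fun j => t⁻¹ * (dgen κ false * dgen κ true) ^ j ∈ B)).card : ZMod 2),
      (dgen κ false * dgen κ true) ^ n⟩ := by
  induction n with
  | zero =>
    ext t
    · simp
    · simp
  | succ n ih =>
    rw [pow_succ, ih]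
    ext t
    · rw [Aff.mul_f]
      simp only [sideGen, Bool.false_eq_true, if_false, if_true, Aff.mul_f, add_zero]
      rw [Finset.range_add_one, Finset.filter_insert]
      have h1 : ((dgen κ false * dgen κ true) ^ n)⁻¹ * t ∈ B ↔
          t⁻¹ * (dgen κ false * dgen κ true) ^ n ∈ B := by
        rw [← B.inv_mem_iff]; simp
      by_cases h : t⁻¹ * (dgen κ false * dgen κ true) ^ n ∈ B
      · rw [if_pos h, if_pos (h1.2 h), Finset.card_insert_of_notMem (by simp)]
        push_cast
        rfl
      · rw [if_neg h, if_neg (fun h' => h (h1.1 h')), add_zero]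
    · rw [Aff.mul_g, pow_succ]
      simp [sideGen]

open Classical in
theorem sideGen_pow2 (B : Subgroup (D κ)) (n : ℕ) :
    (sideGen κ B true * sideGen κ B false) ^ n = ⟨fun t => (((Finset.range n).filter
      (fun j => t⁻¹ * (dgen κ true * (dgen κ false * dgen κ true) ^ j) ∈ B)).card : ZMod 2),
      (dgen κ true * dgen κ false) ^ n⟩ := by
  induction n with
  | zero =>
    ext t
    · simp
    · simp
  | succ n ih =>
    rw [pow_succ, ih]
    ext t
    · rw [Aff.mul_f]
      simp only [sideGen, Bool.false_eq_true, if_false, if_true, Aff.mul_f, zero_add]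
      rw [Finset.range_add_one, Finset.filter_insert]
      have h0 : (dgen κ true * dgen κ false) ^ n * dgen κ true =
          dgen κ true * (dgen κ false * dgen κ true) ^ n := by
        rw [mul_pow_mul]
      have h1 : (dgen κ true)⁻¹ * (((dgen κ true * dgen κ false) ^ n)⁻¹ * t) ∈ B ↔
          t⁻¹ * (dgen κ true * (dgen κ false * dgen κ true) ^ n) ∈ B := by
        rw [← B.inv_mem_iff, ← h0]
        simp [mul_assoc]
      by_cases h : t⁻¹ * (dgen κ true * (dgen κ false * dgen κ true) ^ n) ∈ B
      · rw [if_pos h, if_pos (h1.2 h), Finset.card_insert_of_notMem (by simp)]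
        push_cast
        rfl
      · rw [if_neg h, if_neg (fun h' => h (h1.1 h')), add_zero]
    · rw [Aff.mul_g, pow_succ]
      simp [sideGen]

/-- the homomorphism defining the side function of letter `a` -/
noncomputable def sideHom (B : Subgroup (D κ)) (hB : ParD κ B) : D κ →* Aff (D κ) :=
  dlift κ (sideGen κ B) (by
    classical
    rw [sideGen_pow1, sideGen_pow2]
    ext t
    · have h := hB t
      rw [← ZMod.natCast_eq_zero_iff_even] at h
      push_cast at h
      have h2 := CharTwo.add_eq_zero.1 h
      convert h2 using 3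
    · exact dgen_rel κ false true)

theorem sideHom_g (B : Subgroup (D κ)) (hB : ParD κ B) (g : D κ) :
    (sideHom B hB g).g = g := by
  have : (Aff.toG).comp (sideHom B hB) = MonoidHom.id _ := by
    apply D_hom_ext
    intro x
    cases x <;> simp [sideHom, sideGen]
  exact DFunLike.congr_fun this g

theorem isSide_a (B : Subgroup (D κ)) (hB : ParD κ B) :
    IsSide (dgen κ) false B (fun t g => (sideHom B hB g).f t) where
  mul t g h := by rw [map_mul, Aff.mul_f, sideHom_g]
  self_mem t ht := by simp [sideHom, sideGen, ht]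
  self_not_mem t ht := by simp [sideHom, sideGen, ht]
  other t y hy := by
    cases y
    · exact absurd rfl hy
    · simp [sideHom, sideGen]

@[simp] theorem dswap_dgen (x : Bool) : dswap κ (dgen κ x) = dgen κ (!x) := by
  simp [dswap]

theorem dswap_dswap (g : D κ) : dswap κ (dswap κ g) = g := by
  have : (dswap κ).comp (dswap κ) = MonoidHom.id _ := by
    apply D_hom_ext
    intro x
    simp
  exact DFunLike.congr_fun this g

theorem dswap_del : dswap κ (del κ) = del' κ := by
  simp [del, del']

theorem dswap_del' : dswap κ (del' κ) = del κ := by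
  simp [del, del']

theorem dswap_mem_zpowers {t : D κ} :
    dswap κ t ∈ Subgroup.zpowers (del κ) ↔ t ∈ Subgroup.zpowers (del' κ) := by
  constructor
  · rintro ⟨n, hn⟩
    refine ⟨n, ?_⟩
    have := congrArg (dswap κ) hn
    simpa [dswap_dswap, dswap_del] using this
  · rintro ⟨n, rfl⟩
    exact ⟨n, by simp [dswap_del']⟩

end

/-- Module SIDED -/
theorem sided_of (h1 : S_PARV) (h2 : S_PARK) : S_SIDED := by
  intro κ hκ f
  cases f with
  | Va => exact ⟨_, isSide_a _ (h1 κ hκ)⟩
  | Vb =>
    have h := isSide_a _ (h1 κ hκ)
    refine ⟨fun t g => (sideHom _ (h1 κ hκ) (dswap κ g)).f (dswap κ t), ?_, ?_, ?_, ?_⟩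
    · intro t g k
      have := h.mul (dswap κ t) (dswap κ g) (dswap κ k)
      simp only [map_mul, map_inv] at this ⊢
      exact this
    · intro t ht
      have := h.self_mem (dswap κ t) (dswap_mem_zpowers.2 ht)
      simpa [LFam.letter] using this
    · intro t ht
      have := h.self_not_mem (dswap κ t) (fun h' => ht (dswap_mem_zpowers.1 h'))
      simpa [LFam.letter] using this
    · intro t y hy
      have hy' : y = false := by
        cases y
        · rfl
        · exact absurd rfl hy
      subst hy'
      have := h.other (dswap κ t) true (by simp)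
      simpa using this
  | Ha => exact ⟨_, isSide_a _ (h2 κ hκ)⟩

/-- SIDED without hypotheses -/
theorem sided : S_SIDED := sided_of parv park

end TA
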